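import Mathlib
import Pool.Agent.Helper17.CR.Stmts

/-!
MP_c38931_co, module FRAT: the Frattini subgroup of a normal p-subgroup.
-/

set_option autoImplicit false

namespace Pool.Agent.Helper38.CR

open Pool.Agent.Helper17.CR

universe u

/-- the quotient of a finite p-group by a maximal subgroup has order p -/
theorem frat_card {P : Type u} [Group P] [Finite P] {p : ℕ} (hp : p.Prime) (hP : IsPGroup p P)
    (M : Subgroup P) [M.Normal] (hM : IsCoatom M) : Nat.card (P ⧸ M) = p := by
  have hQ : IsPGroup p (P ⧸ M) := hP.to_quotient M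
  have : Fact p.Prime := ⟨hp⟩
  have : Nontrivial (P ⧸ M) := by
    obtain ⟨x, -, hx⟩ := SetLike.exists_of_lt (lt_top_iff_ne_top.2 hM.1)
    refine ⟨⟨(x : P ⧸ M), 1, ?_⟩⟩
    intro h
    exact hx ((QuotientGroup.eq_one_iff x).1 h)
  have hdvd : p ∣ Nat.card (P ⧸ M) := by
    obtain ⟨n, hn⟩ := IsPGroup.iff_card.1 hQ
    rw [hn]
    rcases Nat.eq_zero_or_pos n with h0 | h0
    · exfalso
      rw [h0, pow_zero] at hn
      have := Finite.one_lt_card (α := P ⧸ M)
      omega
    · exact dvd_pow_self p (by omega)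
  obtain ⟨z, hz⟩ := exists_prime_orderOf_dvd_card' (G := P ⧸ M) p hdvd
  have htop : (Subgroup.zpowers z).comap (QuotientGroup.mk' M) = ⊤ := by
    apply hM.2
    refine lt_of_le_of_ne ?_ ?_
    · intro x hx
      rw [Subgroup.mem_comap]
      have : (QuotientGroup.mk' M) x = 1 := (QuotientGroup.eq_one_iff x).2 hx
      rw [this]
      exact Subgroup.one_mem _
    · intro h
      obtain ⟨w, rfl⟩ := QuotientGroup.mk'_surjective M z
      have hw : w ∈ (Subgroup.zpowers ((QuotientGroup.mk' M) w)).comap (QuotientGroup.mk' M) :=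
        Subgroup.mem_zpowers _
      rw [← h] at hw
      have : (QuotientGroup.mk' M) w = 1 := (QuotientGroup.eq_one_iff w).2 hw
      rw [this, orderOf_one] at hz
      exact hp.one_lt.ne hz
  have htop2 : Subgroup.zpowers z = ⊤ := by
    rw [eq_top_iff]
    intro y _
    obtain ⟨w, rfl⟩ := QuotientGroup.mk'_surjective M y
    have hw : w ∈ (Subgroup.zpowers z).comap (QuotientGroup.mk' M) := by
      rw [htop]; exact Subgroup.mem_top w
    exact hw
  rw [← hz, ← Nat.card_zpowers, htop2, Subgroup.card_top]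

theorem frat_coatom {P : Type u} [Group P] [Finite P] {p : ℕ} (hp : p.Prime) (hP : IsPGroup p P)
    (M : Subgroup P) (hM : IsCoatom M) :
    (∀ x : P, x ^ p ∈ M) ∧ ∀ x y : P, x * y * x⁻¹ * y⁻¹ ∈ M := by
  have : Fact p.Prime := ⟨hp⟩
  have : Group.IsNilpotent P := hP.isNilpotent
  have hN : M.Normal := Subgroup.NormalizerCondition.normal_of_coatom M
    Group.normalizerCondition_of_isNilpotent hM
  have hc := frat_card hp hP M hM
  have : IsCyclic (P ⧸ M) := isCyclic_of_prime_card hc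
  constructor
  · intro x
    rw [← QuotientGroup.eq_one_iff]
    have : ((x ^ p : P) : P ⧸ M) = (x : P ⧸ M) ^ p := rfl
    rw [this, ← hc]
    exact pow_card_eq_one'
  · intro x y
    rw [← QuotientGroup.eq_one_iff]
    have hcomm : (x : P ⧸ M) * (y : P ⧸ M) = (y : P ⧸ M) * (x : P ⧸ M) :=
      (IsCyclic.commGroup (α := P ⧸ M)).mul_comm _ _
    have : ((x * y * x⁻¹ * y⁻¹ : P) : P ⧸ M) =
        (x : P ⧸ M) * (y : P ⧸ M) * (x : P ⧸ M)⁻¹ * (y : P ⧸ M)⁻¹ := rfl
    rw [this, hcomm]
    group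

theorem frat_frattini {P : Type u} [Group P] [Finite P] {p : ℕ} (hp : p.Prime)
    (hP : IsPGroup p P) :
    (∀ x : P, x ^ p ∈ frattini P) ∧ ∀ x y : P, x * y * x⁻¹ * y⁻¹ ∈ frattini P := by
  constructor
  · intro x
    unfold frattini Order.radical
    simp only [Subgroup.mem_iInf]
    intro M hM
    exact (frat_coatom hp hP M hM).1 x
  · intro x y
    unfold frattini Order.radical
    simp only [Subgroup.mem_iInf]
    intro M hM
    exact (frat_coatom hp hP M hM).2 x y

theorem st_FRAT : ST_FRAT.{u} := by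
  intro G _ _ p F hp hF hPF
  have := hF
  obtain ⟨h1, h2⟩ := frat_frattini hp hPF
  refine ⟨(frattini F).map F.subtype, inferInstance, Subgroup.map_subtype_le _, ?_, ?_, ?_⟩
  · intro x hx
    exact ⟨⟨x, hx⟩ ^ p, h1 ⟨x, hx⟩, rfl⟩
  · intro x hx y hy
    exact ⟨⟨x, hx⟩ * ⟨y, hy⟩ * ⟨x, hx⟩⁻¹ * ⟨y, hy⟩⁻¹, h2 ⟨x, hx⟩ ⟨y, hy⟩, rfl⟩
  · intro U hU hF'
    have e : (U.subgroupOf F) ⊔ frattini F = ⊤ := by
      have hinj : Function.Injective (Subgroup.map F.subtype) :=
        Subgroup.map_injective F.subtype_injective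
      apply hinj
      rw [Subgroup.map_sup, Subgroup.subgroupOf_map_subtype, inf_eq_left.2 hU]
      rw [← MonoidHom.range_eq_map, Subgroup.range_subtype]
      exact le_antisymm (sup_le hU (Subgroup.map_subtype_le _)) hF'
    have e2 := frattini_nongenerating e
    exact le_antisymm hU (Subgroup.subgroupOf_eq_top.1 e2)

end Pool.Agent.Helper38.CR
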