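import Pool.Agent.Helper17.CR.Stmts2

/-! Module VAL (MP_c38931_co, part 2): divisibility by powers of a prime. -/

set_option autoImplicit false

namespace Pool.Agent.Helper17.CR

open Polynomial

theorem val_taylor (F : Polynomial ℤ) (a x q : ℤ)
    (h : ∀ l, q ∣ (hasseDeriv l F).eval a * (x - a) ^ l) : q ∣ F.eval x := by
  have h1 : F.eval x = (taylor a F).eval (x - a) := by
    rw [taylor_eval]
    ring_nf
  rw [h1, eval_eq_sum_range]
  exact Finset.dvd_sum fun l _ => by rw [taylor_coeff]; exact h l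

theorem val_gen (F : Polynomial ℤ) (a x p : ℤ) (w e1 n m i : ℕ)
    (hF : ∀ l, l + i < n → p ^ w ∣ (hasseDeriv l F).eval a) (hx : p ^ e1 ∣ x - a)
    (hm : m ≤ w) (hm2 : m ≤ e1 * (n - i)) : p ^ m ∣ F.eval x := by
  apply val_taylor F a x
  intro l
  by_cases hl : l + i < n
  · exact Dvd.dvd.mul_right ((pow_dvd_pow p hm).trans (hF l hl)) _
  · apply Dvd.dvd.mul_left
    have h1 : (p ^ e1) ^ l ∣ (x - a) ^ l := pow_dvd_pow_of_dvd hx l
    rw [← pow_mul] at h1
    refine (pow_dvd_pow p ?_).trans h1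
    exact hm2.trans (Nat.mul_le_mul_left _ (by omega))

theorem val_hasse (l i : ℕ) (P : Polynomial ℤ) (a : ℤ) :
    (hasseDeriv l (hasseDeriv i P)).eval a =
      ((l + i).choose l : ℤ) * (hasseDeriv (l + i) P).eval a := by
  have h := congrArg (fun f => (f P).eval a) (hasseDeriv_comp (R := ℤ) l i)
  simp only [LinearMap.comp_apply, LinearMap.smul_apply] at h
  rw [h, nsmul_eq_mul, eval_mul, eval_natCast]

/-- VAL: divisibility by powers of a prime -/
theorem st_VAL : ST_VAL := by
  intro D r H i w e1 e2 m p x y a P hA hw hx hy hmw hm1 hm2 hm3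
  have e : (hasseDeriv i (spc P y)).eval x =
      (hasseDeriv i (P 0) + C a * hasseDeriv i (P 1) + C (a ^ 2) * hasseDeriv i (P 2)).eval x +
      (y - a) * (hasseDeriv i (P 1) + C (2 * a) * hasseDeriv i (P 2)).eval x +
      (y - a) ^ 2 * (hasseDeriv i (P 2)).eval x := by
    have h1 : hasseDeriv i (spc P y) =
        hasseDeriv i (P 0) + C y * hasseDeriv i (P 1) + C (y ^ 2) * hasseDeriv i (P 2) := by
      rw [spc, ← smul_eq_C_mul, ← smul_eq_C_mul, map_add, map_add, map_smul, map_smul,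
        smul_eq_C_mul, smul_eq_C_mul]
    rw [h1]
    simp only [eval_add, eval_mul, eval_C]
    ring
  have hF : p ^ m ∣
      (hasseDeriv i (P 0) + C a * hasseDeriv i (P 1) + C (a ^ 2) * hasseDeriv i (P 2)).eval x := by
    apply val_gen _ a x p w e1 (7 * r) m i _ hx hmw hm1
    intro l hl
    have h0 := hA.v0 (l + i) hl
    obtain ⟨R, hR⟩ := h0
    have h2 := congrArg (fun f => f.eval a) hR
    simp only [eval_add, eval_mul, eval_pow, eval_X, eval_C] at h2
    have h3 : (hasseDeriv l (hasseDeriv i (P 0) + C a * hasseDeriv i (P 1) +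
        C (a ^ 2) * hasseDeriv i (P 2))).eval a = ((l + i).choose l : ℤ) *
        ((a ^ 2 + (D : ℤ)) * R.eval a) := by
      rw [← h2, ← smul_eq_C_mul, ← smul_eq_C_mul, map_add, map_add, map_smul, map_smul,
        smul_eq_C_mul, smul_eq_C_mul]
      simp only [eval_add, eval_mul, eval_C, val_hasse]
      ring
    rw [h3]
    exact Dvd.dvd.mul_left (Dvd.dvd.mul_right hw _) _
  have hG : p ^ (m - e2) ∣
      (hasseDeriv i (P 1) + C (2 * a) * hasseDeriv i (P 2)).eval x := by
    apply val_gen _ a x p w e1 (2 * r) (m - e2) i _ hx (by omega) (by omega)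
    intro l hl
    have h0 := hA.v1 (l + i) hl
    obtain ⟨R, hR⟩ := h0
    have h2 := congrArg (fun f => f.eval a) hR
    simp only [eval_add, eval_mul, eval_pow, eval_X, eval_C, eval_ofNat] at h2
    have h3 : (hasseDeriv l (hasseDeriv i (P 1) +
        C (2 * a) * hasseDeriv i (P 2))).eval a = ((l + i).choose l : ℤ) *
        ((a ^ 2 + (D : ℤ)) * R.eval a) := by
      rw [← h2, ← smul_eq_C_mul, map_add, map_smul, smul_eq_C_mul]
      simp only [eval_add, eval_mul, eval_C, val_hasse]
      ring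
    rw [h3]
    exact Dvd.dvd.mul_left (Dvd.dvd.mul_right hw _) _
  rw [e]
  refine dvd_add (dvd_add hF ?_) ?_
  · have h1 : p ^ (e2 + (m - e2)) ∣ (y - a) *
        (hasseDeriv i (P 1) + C (2 * a) * hasseDeriv i (P 2)).eval x := by
      rw [pow_add]
      exact mul_dvd_mul hy hG
    exact (pow_dvd_pow p (by omega)).trans h1
  · apply Dvd.dvd.mul_right
    have h1 : (p ^ e2) ^ 2 ∣ (y - a) ^ 2 := pow_dvd_pow_of_dvd hy 2
    rw [← pow_mul] at h1
    exact (pow_dvd_pow p (by omega)).trans h1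

end Pool.Agent.Helper17.CR
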